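import Pool.Agent.H125e.UB4

/-! # MP_91ed4c_nt: the coefficients `c(n)` are unbounded above and below -/

namespace Pool.Agent.Results.MP_91ed4c_nt.UnboundedCoefficients

open PowerSeries Pool.Agent.H125e.UB4

/-- The coefficients `c(n)` of
`C(q) = (∑ q^{6n²+n}(1-q^{4n+1})) (∑ q^{2n²+3n}) + (∑ q^{6n²+7n+1}(1-q^{4n+3})) (∑ q^{2n²+n})`
are unbounded above and below. -/
theorem result : (∀ M : ℤ, ∃ n : ℕ, M < coeff n series) ∧
    ∀ M : ℤ, ∃ n : ℕ, coeff n series < -M := both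

end Pool.Agent.Results.MP_91ed4c_nt.UnboundedCoefficients
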